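import Pool.Agent.Y72.Ko.Stm

set_option autoImplicit false

/-! KO-BND: local and global bounds imply class `P`. -/

namespace Pool.Agent.Y465.KO

open Finset MeasureTheory

theorem sum_len (s : Finset ℕ) (a b : ℕ → unitInterval)
    (hd : ∀ i ∈ s, ∀ j ∈ s, i ≠ j → b i ≤ a j ∨ b j ≤ a i) (hab : ∀ i ∈ s, a i ≤ b i) :
    ∑ i ∈ s, ((b i : ℝ) - a i) ≤ 1 := by
  have h1 : volume (⋃ i ∈ s, Set.Ioo (a i : ℝ) (b i : ℝ)) =
      ∑ i ∈ s, volume (Set.Ioo (a i : ℝ) (b i : ℝ)) := by
    refine measure_biUnion_finset ?_ (fun i _ => measurableSet_Ioo)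
    intro i hi j hj hij
    rw [Function.onFun, Set.disjoint_left]
    rintro t ⟨h1, h2⟩ ⟨h3, h4⟩
    rcases hd i hi j hj hij with h | h
    · have h5 : (b i : ℝ) ≤ a j := h
      linarith
    · have h5 : (b j : ℝ) ≤ a i := h
      linarith
  have h2 : volume (⋃ i ∈ s, Set.Ioo (a i : ℝ) (b i : ℝ)) ≤ volume (Set.Icc (0 : ℝ) 1) := by
    refine measure_mono ?_
    intro t ht
    rw [Set.mem_iUnion₂] at ht
    obtain ⟨i, _, h3, h4⟩ := ht
    exact ⟨(a i).2.1.trans h3.le, h4.le.trans (b i).2.2⟩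
  rw [h1] at h2
  simp only [Real.volume_Ioo, Real.volume_Icc] at h2
  rw [← ENNReal.ofReal_sum_of_nonneg (fun i hi => sub_nonneg.2 (hab i hi)),
    ENNReal.ofReal_le_ofReal_iff (by norm_num)] at h2
  linarith

theorem bnd : Pool.Agent.Y72.Ko.S_BND := by
  classical
  intro f B L K hB hloc hglo
  refine ⟨|L| + hB.toFinset.card * (2 * |K|), ?_⟩
  intro s a b x y z w hd h
  have hab : ∀ i ∈ s, a i ≤ b i := fun i hi => by
    obtain ⟨h1, h2, h3, -⟩ := h i hi
    exact (h1.trans h2.le).trans h3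
  rw [← Finset.sum_filter_add_sum_filter_not s (fun i => ∃ t ∈ B, a i < t ∧ t < b i), add_comm]
  refine add_le_add ?_ ?_
  · have h1 : ∀ i ∈ s.filter (fun i => ¬ ∃ t ∈ B, a i < t ∧ t < b i),
        |Pool.Agent.Y72.Ko.ls f (x i) (y i) - Pool.Agent.Y72.Ko.ls f (z i) (w i)| ≤
          |L| * ((b i : ℝ) - a i) := by
      intro i hi
      rw [Finset.mem_filter] at hi
      obtain ⟨hi1, hi2⟩ := hi
      obtain ⟨h1, h2, h3, h4, h5, h6⟩ := h i hi1
      refine (hloc (a i) (b i) (x i) (y i) (z i) (w i) (fun t ht h7 => hi2 ⟨t, ht, h7⟩)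
        h1 h2 h3 h4 h5 h6).trans ?_
      exact mul_le_mul_of_nonneg_right (le_abs_self L) (sub_nonneg.2 (hab i hi1))
    refine (Finset.sum_le_sum h1).trans ?_
    rw [← Finset.mul_sum]
    refine (mul_le_mul_of_nonneg_left ?_ (abs_nonneg L)).trans_eq (mul_one _)
    refine le_trans (Finset.sum_le_sum_of_subset_of_nonneg (Finset.filter_subset _ s)
      (fun i hi _ => sub_nonneg.2 (hab i hi))) (sum_len s a b hd hab)
  · have h1 : ∀ i ∈ s.filter (fun i => ∃ t ∈ B, a i < t ∧ t < b i),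
        |Pool.Agent.Y72.Ko.ls f (x i) (y i) - Pool.Agent.Y72.Ko.ls f (z i) (w i)| ≤ 2 * |K| := by
      intro i hi
      rw [Finset.mem_filter] at hi
      obtain ⟨h1, h2, h3, h4, h5, h6⟩ := h i hi.1
      have h7 := hglo (x i) (y i) h2
      have h8 := hglo (z i) (w i) h5
      have h9 := abs_sub (Pool.Agent.Y72.Ko.ls f (x i) (y i)) (Pool.Agent.Y72.Ko.ls f (z i) (w i))
      have h10 := le_abs_self K
      linarith
    have h2 : (s.filter (fun i => ∃ t ∈ B, a i < t ∧ t < b i)).card ≤ hB.toFinset.card := by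
      have hch : ∀ i : ℕ, ∃ t : unitInterval, i ∈ s.filter (fun i => ∃ t ∈ B, a i < t ∧ t < b i) →
          t ∈ B ∧ a i < t ∧ t < b i := by
        intro i
        by_cases hi : i ∈ s.filter (fun i => ∃ t ∈ B, a i < t ∧ t < b i)
        · obtain ⟨t, ht⟩ := (Finset.mem_filter.1 hi).2
          exact ⟨t, fun _ => ht⟩
        · exact ⟨0, fun h => absurd h hi⟩
      choose t ht using hch
      refine Finset.card_le_card_of_injOn t ?_ ?_
      · intro i hi
        rw [Finset.mem_coe, Set.Finite.mem_toFinset]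
        exact (ht i hi).1
      · intro i hi j hj hij
        by_contra hne
        obtain ⟨-, h3, h4⟩ := ht i hi
        obtain ⟨-, h5, h6⟩ := ht j hj
        rcases hd i (Finset.mem_filter.1 hi).1 j (Finset.mem_filter.1 hj).1 hne with h7 | h7
        · exact absurd (h4.trans_le (h7.trans h5.le)) (by rw [hij]; exact lt_irrefl _)
        · exact absurd (h6.trans_le (h7.trans h3.le)) (by rw [hij]; exact lt_irrefl _)
    refine (Finset.sum_le_card_nsmul _ _ _ h1).trans ?_
    rw [nsmul_eq_mul]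
    refine mul_le_mul_of_nonneg_right ?_ (by positivity)
    exact_mod_cast h2

end Pool.Agent.Y465.KO
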